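import Mathlib

set_option autoImplicit false

namespace Pool.Agent.Results.MP_e70d00_co.Disproof

open Finset

/-- The `t`-coset `T_{a,b}`. -/
def coset {n t : ℕ} (a b : Fin t ↪ Fin n) : Finset (Equiv.Perm (Fin n)) :=
  univ.filter (fun σ => ∀ i, σ (a i) = b i)

/-- The characteristic function of a family of permutations. -/
noncomputable def ind {n : ℕ} (A : Finset (Equiv.Perm (Fin n))) :
    EuclideanSpace ℝ (Equiv.Perm (Fin n)) :=
  WithLp.toLp 2 (fun σ => if σ ∈ A then 1 else 0)

/-- `U_t`, the span of the characteristic functions of the `t`-cosets. -/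
noncomputable def U (n t : ℕ) : Submodule ℝ (EuclideanSpace ℝ (Equiv.Perm (Fin n))) :=
  Submodule.span ℝ {f | ∃ a b : Fin t ↪ Fin n, f = ind (coset a b)}

/-- Expectation under the uniform measure on `S_n`. -/
noncomputable def expect {n : ℕ} (h : Equiv.Perm (Fin n) → ℝ) : ℝ :=
  (∑ σ, h σ) / (n.factorial : ℝ)

/-- `C` is a union of `t`-cosets. -/
def IsUnionOfCosets {n : ℕ} (t : ℕ) (C : Finset (Equiv.Perm (Fin n))) : Prop :=
  ∀ σ ∈ C, ∃ a b : Fin t ↪ Fin n, σ ∈ coset a b ∧ coset a b ⊆ C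

def pairEmb {n : ℕ} (i j : Fin n) (h : i ≠ j) : Fin 2 ↪ Fin n :=
  ⟨![i, j], by
    intro x y hxy
    fin_cases x <;> fin_cases y <;> simp_all [eq_comm]⟩

lemma mem_U {n : ℕ} (i j : Fin n) (h : i ≠ j) (g : Fin n → Fin n → ℝ) :
    (WithLp.toLp 2 (fun σ : Equiv.Perm (Fin n) => g (σ i) (σ j)) :
      EuclideanSpace ℝ (Equiv.Perm (Fin n))) ∈ U n 2 := by
  have : (WithLp.toLp 2 (fun σ : Equiv.Perm (Fin n) => g (σ i) (σ j)) :
      EuclideanSpace ℝ (Equiv.Perm (Fin n))) =
      ∑ p : {p : Fin n × Fin n // p.1 ≠ p.2}, g p.1.1 p.1.2 • ind (coset (pairEmb i j h)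
        (pairEmb p.1.1 p.1.2 p.2)) := by
    ext σ
    simp only [WithLp.ofLp_sum, WithLp.ofLp_smul, Finset.sum_apply, Pi.smul_apply, ind, smul_eq_mul]
    rw [Finset.sum_eq_single ⟨(σ i, σ j), fun e => h (σ.injective e)⟩]
    · simp [coset, pairEmb, Fin.forall_fin_two]
    · rintro ⟨⟨x, y⟩, hp⟩ _ hne
      rw [if_neg, mul_zero]
      intro hm
      apply hne
      simp only [coset, pairEmb, Fin.forall_fin_two, mem_filter, mem_univ, true_and,
        Function.Embedding.coeFn_mk, Matrix.cons_val_zero, Matrix.cons_val_one] at hm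
      simp [hm.1, hm.2]
    · simp
  rw [this]
  exact Submodule.sum_mem _ fun p _ => Submodule.smul_mem _ _ (Submodule.subset_span ⟨_, _, rfl⟩)

def pos {m : ℕ} (i : Fin 3) : Fin (2 * (m + 4)) := ⟨i, by omega⟩

def fam (m : ℕ) : Finset (Equiv.Perm (Fin (2 * (m + 4)))) :=
  univ.filter (fun σ => (∀ i, (σ (pos i)).val < m + 4) ∨ (∀ i, ¬ (σ (pos i)).val < m + 4))

lemma fam_mem (m : ℕ) : ind (fam m) ∈ U (2 * (m + 4)) 2 := by
  let a : Fin (2 * (m + 4)) → ℝ := fun x => if x.val < m + 4 then 1 else 0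
  have h := (U _ 2).add_mem ((U _ 2).add_mem
    (mem_U (pos 0) (pos 1) (by simp [pos]) (fun x y => 1 - a x - a y + a x * a y))
    (mem_U (pos 0) (pos 2) (by simp [pos]) (fun x y => a x * a y - a y)))
    (mem_U (pos 1) (pos 2) (by simp [pos]) (fun x y => a x * a y))
  convert h using 1
  ext σ
  simp only [ind, fam, mem_filter, mem_univ, true_and, Fin.forall_fin_succ, a, PiLp.add_apply]
  by_cases h0 : (σ (pos 0)).val < m + 4 <;> by_cases h1 : (σ (pos 1)).val < m + 4 <;>
    by_cases h2 : (σ (pos 2)).val < m + 4 <;> simp [h0, h1, h2]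

lemma side (m : ℕ) (σ : Equiv.Perm (Fin (2 * (m + 4)))) (x : Fin (2 * (m + 4))) :
    m + 4 ≤ (univ.filter (fun j => ¬ ((σ j).val < m + 4 ↔ x.val < m + 4))).card := by
  have := Finset.card_le_card_of_injOn (s := (univ : Finset (Fin (m + 4))))
    (t := univ.filter (fun j => ¬ ((σ j).val < m + 4 ↔ x.val < m + 4)))
    (fun y => σ.symm ⟨if x.val < m + 4 then y + (m + 4) else y, by split_ifs <;> omega⟩) (by
      intro y _
      simp only [coe_filter, mem_univ, true_and, Set.mem_ofPred_eq, Equiv.apply_symm_apply]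
      split_ifs <;> omega) (by
      intro y _ y' _ h
      have := congrArg Fin.val (σ.symm.injective h)
      apply Fin.ext
      simp only at this
      split_ifs at this <;> omega)
  simpa using this

lemma far (m : ℕ) (C : Finset (Equiv.Perm (Fin (2 * (m + 4))))) (hC : IsUnionOfCosets 2 C) :
    (fam m).card ≤ 12 * (symmDiff (fam m) C).card := by
  have ch : ∀ σ ∈ C, ∃ (i : Fin 3) (J : Finset (Fin (2 * (m + 4)))), J.card ≤ 2 ∧ ∀ j, j ∉ J →
      σ * Equiv.swap (pos i) j ∈ C := by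
    intro σ hσ
    obtain ⟨a, b, h1, h2⟩ := hC σ hσ
    have : ∃ i : Fin 3, pos i ≠ a 0 ∧ pos i ≠ a 1 := by
      by_contra hh
      push Not at hh
      have a0 := hh 0
      have a1 := hh 1
      have a2 := hh 2
      simp only [ne_eq, Fin.ext_iff, pos] at a0 a1 a2
      simp at a0 a1 a2
      omega
    obtain ⟨i, hi⟩ := this
    refine ⟨i, {a 0, a 1}, card_le_two, fun j hj => h2 ?_⟩
    simp only [coset, mem_filter, mem_univ, true_and, Fin.forall_fin_two, mem_insert,
      mem_singleton, not_or, Equiv.Perm.mul_apply] at h1 hj ⊢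
    rw [Equiv.swap_apply_of_ne_of_ne hi.1.symm (Ne.symm hj.1),
      Equiv.swap_apply_of_ne_of_ne hi.2.symm (Ne.symm hj.2)]
    exact h1
  choose! I J hJ hsw using ch
  let good := fun σ : Equiv.Perm (Fin (2 * (m + 4))) =>
    (univ.filter (fun j => ¬ ((σ j).val < m + 4 ↔ (σ (pos (I σ))).val < m + 4))) \ J σ
  have h1 : ((fam m ∩ C).sigma good).card ≤
      ((C \ fam m) ×ˢ (univ : Finset (Fin 3 × Fin (2 * (m + 4))))).card := by
    apply Finset.card_le_card_of_injOn (fun p => (p.1 * Equiv.swap (pos (I p.1)) p.2, I p.1, p.2))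
    · rintro ⟨σ, j⟩ hp
      simp only [coe_sigma, Set.mem_sigma_iff, mem_coe, mem_inter, good, mem_sdiff, mem_filter,
        mem_univ, true_and] at hp
      obtain ⟨⟨hA, hσ⟩, hj, hjJ⟩ := hp
      simp only [coe_product, coe_sdiff, Set.mem_prod, Set.mem_sdiff, mem_coe, mem_univ, and_true]
      refine ⟨hsw σ hσ j hjJ, fun hA' => ?_⟩
      simp only [fam, mem_filter, mem_univ, true_and, Equiv.Perm.mul_apply] at hA hA'
      obtain ⟨i', hi'⟩ := exists_ne (I σ)
      have n1 : pos (m := m) i' ≠ pos (I σ) := fun e => hi' (Fin.ext (by simpa [pos] using e))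
      have s1 : (σ (pos i')).val < m + 4 ↔ (σ (pos (I σ))).val < m + 4 := by
        rcases hA with h | h
        · exact iff_of_true (h _) (h _)
        · exact iff_of_false (h _) (h _)
      have n2 : pos i' ≠ j := by rintro rfl; exact hj s1
      have s2 : (σ (Equiv.swap (pos (I σ)) j (pos i'))).val < m + 4 ↔
          (σ (Equiv.swap (pos (I σ)) j (pos (I σ)))).val < m + 4 := by
        rcases hA' with h | h
        · exact iff_of_true (h _) (h _)
        · exact iff_of_false (h _) (h _)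
      rw [Equiv.swap_apply_of_ne_of_ne n1 n2, Equiv.swap_apply_left] at s2
      exact hj (s2.symm.trans s1)
    · rintro ⟨σ, j⟩ _ ⟨σ', j'⟩ _ h
      simp only [Prod.mk.injEq] at h
      obtain ⟨a, b, rfl⟩ := h
      rw [b] at a
      rw [mul_right_cancel a]
  have h2 : (fam m ∩ C).card * (m + 2) ≤ ((fam m ∩ C).sigma good).card := by
    rw [card_sigma, ← smul_eq_mul]
    refine Finset.card_nsmul_le_sum _ _ _ fun σ hσ => ?_
    have a := side m σ (σ (pos (I σ)))
    have b := hJ σ (mem_inter.1 hσ).2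
    have c := Finset.le_card_sdiff (J σ)
      (univ.filter (fun j => ¬ ((σ j).val < m + 4 ↔ (σ (pos (I σ))).val < m + 4)))
    simp only [good]
    omega
  have h3 : (fam m ∩ C).card ≤ 12 * (C \ fam m).card := by
    rw [card_product, card_univ, Fintype.card_prod, Fintype.card_fin, Fintype.card_fin] at h1
    refine Nat.le_of_mul_le_mul_right (c := m + 2) ?_ (by omega)
    nlinarith
  have h4 : (symmDiff (fam m) C).card = (fam m \ C).card + (C \ fam m).card := by
    rw [Finset.symmDiff_def, card_union_of_disjoint disjoint_sdiff_sdiff]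
  have h5 := Finset.card_sdiff_add_card_inter (fam m) C
  omega

theorem result : ¬ ∃ C₀ : ℝ, ∀ (n t : ℕ), t ≤ n → ∀ ε : ℝ, 0 < ε →
    ∀ A : Finset (Equiv.Perm (Fin n)),
      expect (fun σ => (ind A σ - (U n t).starProjection (ind A) σ) ^ 2) ≤
        ε * expect (fun σ => ind A σ) →
      ∃ C : Finset (Equiv.Perm (Fin n)), IsUnionOfCosets t C ∧
        ((symmDiff A C).card : ℝ) ≤ C₀ * (ε + 1 / n) * A.card := by
  rintro ⟨C₀, H⟩
  obtain ⟨m, hm⟩ := exists_nat_gt (24 * C₀)
  have hn : (0 : ℝ) < ((2 * (m + 4) : ℕ) : ℝ) := by positivity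
  obtain ⟨C, hC, hd⟩ := H (2 * (m + 4)) 2 (by omega) (1 / ((2 * (m + 4) : ℕ) : ℝ)) (by positivity)
    (fam m) (by
      rw [Submodule.starProjection_eq_self_iff.2 (fam_mem m)]
      simp only [sub_self, expect]
      refine le_trans (le_of_eq (by simp)) (mul_nonneg (by positivity) (div_nonneg
        (Finset.sum_nonneg fun σ _ => ?_) (by positivity)))
      simp only [ind]
      split_ifs <;> norm_num)
  have h1 : ((fam m).card : ℝ) ≤ 12 * (symmDiff (fam m) C).card := by exact_mod_cast far m C hC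
  have h2 : (0 : ℝ) < (fam m).card := by
    have : 0 < (fam m).card := card_pos.2 ⟨1, by
      simp only [fam, mem_filter, mem_univ, true_and]
      exact Or.inl fun i => by simp [pos]; omega⟩
    exact_mod_cast this
  have h3 : C₀ * (1 / ((2 * (m + 4) : ℕ) : ℝ) + 1 / ((2 * (m + 4) : ℕ) : ℝ)) < 1 / 12 := by
    rw [← add_div, ← mul_div_assoc, div_lt_iff₀ hn]
    push_cast
    have : (0 : ℝ) ≤ m := Nat.cast_nonneg _
    linarith
  nlinarith

end Pool.Agent.Results.MP_e70d00_co.Disproof
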